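import Pool.Agent.Helper91.SY.Heads

/-!
# Project SY, packet BA: commuting translations imply standard
-/

set_option autoImplicit false

open Set Filter Topology
open scoped ContDiff
open Pool.Agent.Helper91.SY

namespace Pool.Agent.Helper98.SY

theorem ba_ (gi : StmtGI) (iv : StmtIV) (ps : StmtPS) (rc : StmtRC) (cw : StmtCW)
    (cx : StmtCX) : StmtBA := by
  rintro n η hη ⟨e₁, e₂, hli, g₁, g₂, hsm, hpres, ⟨K1, hK1, h1⟩, ⟨K2, hK2, h2⟩, hcomm⟩
  obtain ⟨B, B0, R0, hR0, hsymp, hfar, hB, hB0⟩ := cw n η hη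
  obtain ⟨τ, τ₂, t1, t2, t3, t4⟩ := (cx n).2.2.1 e₁ e₂ hli
  obtain ⟨r1, hr1⟩ := hK1.isBounded.subset_closedBall 0
  obtain ⟨r2, hr2⟩ := hK2.isBounded.subset_closedBall 0
  obtain ⟨R, hR⟩ : ∃ R, R = max R0 (max (r1 + 1) (r2 + 1)) := ⟨_, rfl⟩
  have hRR0 : R0 ≤ R := by rw [hR]; exact le_max_left _ _
  have hRr1 : r1 + 1 ≤ R := by rw [hR]; exact le_trans (le_max_left _ _) (le_max_right _ _)
  have hRr2 : r2 + 1 ≤ R := by rw [hR]; exact le_trans (le_max_right _ _) (le_max_right _ _)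
  have hT1 : Tr R e₁ g₁ := by
    intro x hx
    apply h1
    intro hx1
    have := hr1 hx1
    rw [mem_closedBall_zero_iff] at this
    linarith
  have hT2 : Tr R e₂ g₂ := by
    intro x hx
    apply h2
    intro hx1
    have := hr2 hx1
    rw [mem_closedBall_zero_iff] at this
    linarith
  have hfar' : Far R B B0 := fun x hx => hfar x (le_trans hRR0 hx)
  have hpg : Pull (fun x => g₁ x) B B := by
    intro x u v
    rw [hB, hB]
    exact hpres x u v
  obtain ⟨ψ, hψ, hinj, hpull, hwave⟩ := ps (V n) B B0 R e₁ τ g₁ (le_trans hR0 hRR0) hsymp hfar'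
    t1 hsm hpg hT1
  obtain ⟨R', hR'⟩ := rc (V n) R e₁ e₂ τ τ₂ g₁ g₂ ψ (le_trans hR0 hRR0) t1 t2 t3 t4 hT1 hT2
    hcomm hwave
  have hbij := gi (V n) ψ R' hψ hinj hR'
  obtain ⟨e, he, hesm⟩ := iv (V n) ψ hψ hinj hbij
  refine ⟨e.symm, ⟨hesm.2, ?_⟩, ⟨Metric.closedBall 0 R', isCompact_closedBall _ _, ?_⟩, ?_⟩
  · simpa using hesm.1
  · intro x hx
    rw [mem_closedBall_zero_iff, not_le] at hx
    have h3 := hR' x (le_of_lt hx)
    rw [Equiv.symm_apply_eq, he, h3]
  · intro y u v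
    have hid : (ψ ∘ fun z => e.symm z) = id := by
      funext z
      show ψ (e.symm z) = z
      rw [← he, Equiv.apply_symm_apply]
    have hd : (fderiv ℝ ψ (e.symm y)).comp (fderiv ℝ (fun z => e.symm z) y)
        = ContinuousLinearMap.id ℝ (V n) := by
      rw [← fderiv_comp y ((hψ.differentiable (by simp)) _)
        ((hesm.2.differentiable (by simp)) _), hid, fderiv_id]
    have hd' : ∀ w, fderiv ℝ ψ (e.symm y) (fderiv ℝ (fun z => e.symm z) y w) = w := by
      intro w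
      have := congrArg (fun f => f w) hd
      exact this
    have h4 := hpull (e.symm y) (fderiv ℝ (fun z => e.symm z) y u)
      (fderiv ℝ (fun z => e.symm z) y v)
    rw [hd', hd', ← he, Equiv.apply_symm_apply, hB, hB0] at h4
    exact h4.symm

end Pool.Agent.Helper98.SY
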